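import Mathlib

/-!
Homogenized values of integral polynomials at rational numbers (helper file).
-/

namespace Pool.Agent.Y152.BD

/-- The homogenized value of `G` at `α = a / b`, that is `b ^ deg G * G (a / b)`. -/
def Nv (G : Polynomial ℤ) (α : ℚ) : ℤ :=
  ∑ i ∈ Finset.range (G.natDegree + 1), G.coeff i * α.num ^ i * (α.den : ℤ) ^ (G.natDegree - i)

theorem Nv_map {A : Type*} [CommRing A] (G : Polynomial ℤ) (α : ℚ) (c : A)
    (hc : (α.den : A) * c = (α.num : A)) :
    ((Nv G α : ℤ) : A) = (α.den : A) ^ G.natDegree * Polynomial.aeval c G := by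
  rw [Nv, Polynomial.aeval_eq_sum_range, Finset.mul_sum]
  push_cast
  refine Finset.sum_congr rfl fun i hi => ?_
  rw [Finset.mem_range] at hi
  have h1 : (α.den : A) ^ G.natDegree = (α.den : A) ^ i * (α.den : A) ^ (G.natDegree - i) := by
    rw [← pow_add]
    congr 1
    omega
  rw [h1, ← hc, mul_pow]
  simp only [zsmul_eq_mul]
  ring

theorem Nv_rat (G : Polynomial ℤ) (α : ℚ) :
    ((Nv G α : ℤ) : ℚ) = (α.den : ℚ) ^ G.natDegree * Polynomial.aeval α G :=
  Nv_map G α α (by rw [mul_comm]; exact Rat.mul_den_eq_num α)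

end Pool.Agent.Y152.BD
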