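import Pool.Agent.TH526.ZL.L
import Pool.Agent.Y152.BD.Nv

/-!
Valuation rings of `ℂ` above almost all primes which contain given elements of a field `k` and given
numbers algebraically independent over `k`, and in which a given algebraic number is near to a given
rational number (helper file).
-/

open Function MvPolynomial

namespace Pool.Agent.Y152.BD

/-- Above every prime ideal of a ring `Λ ⊆ ℂ` there is a valuation ring of `ℂ` which extends the
Gauss valuation. -/
theorem exists_place_gauss {Λ : Type} [CommRing Λ] [Algebra Λ ℂ] (𝔭 : Ideal Λ) [𝔭.IsPrime]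
    {τ : Type} (x : τ → ℂ) (hx : AlgebraicIndependent Λ x) :
    ∃ V : ValuationSubring ℂ, (∀ P : MvPolynomial τ Λ, V.valuation (aeval x P) ≤ 1) ∧
      (∀ P : MvPolynomial τ Λ, V.valuation (aeval x P) < 1 ↔
        MvPolynomial.map (Ideal.Quotient.mk 𝔭) P = 0) := by
  classical
  let f : MvPolynomial τ Λ →+* ℂ := (aeval x : MvPolynomial τ Λ →ₐ[Λ] ℂ).toRingHom
  have hf : Function.Injective f := hx
  let e : MvPolynomial τ Λ ≃+* f.range := RingEquiv.ofBijective f.rangeRestrict
    ⟨fun a b h => hf (congrArg Subtype.val h), f.rangeRestrict_surjective⟩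
  let g : MvPolynomial τ Λ →+* MvPolynomial τ (Λ ⧸ 𝔭) := MvPolynomial.map (Ideal.Quotient.mk 𝔭)
  let P' : Ideal (MvPolynomial τ Λ) := RingHom.ker g
  have hP' : P'.IsPrime := RingHom.ker_isPrime g
  let P : Ideal f.range := Ideal.comap (e.symm : f.range →+* MvPolynomial τ Λ) P'
  have hP : P.IsPrime := Ideal.comap_isPrime _ _
  obtain ⟨V, hV⟩ := (LocalSubring.ofPrime f.range P).exists_le_valuationSubring
  have hmem : ∀ z : MvPolynomial τ Λ, f z ∈ V := fun z =>
    hV.1 (LocalSubring.le_ofPrime _ _ ⟨z, rfl⟩)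
  have hunit : ∀ z : MvPolynomial τ Λ, V.valuation (f z) < 1 ↔ g z = 0 := by
    intro z
    have h1 : IsUnit (algebraMap f.range (LocalSubring.ofPrime f.range P).toSubring (e z)) ↔
        e z ∈ P.primeCompl := IsLocalization.AtPrime.isUnit_to_map_iff _ P _
    have h2 : e z ∈ P.primeCompl ↔ g z ≠ 0 := by
      rw [Ideal.mem_primeCompl_iff, Ideal.mem_comap]
      rw [RingHom.coe_coe, e.symm_apply_apply, RingHom.mem_ker]
    have h3 : V.valuation (f z) = 1 ↔ IsUnit (⟨f z, hmem z⟩ : V) :=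
      (ValuationSubring.valuation_eq_one_iff V (⟨f z, hmem z⟩ : V)).symm
    have h4 : IsUnit (⟨f z, hmem z⟩ : V) ↔
        IsUnit (algebraMap f.range (LocalSubring.ofPrime f.range P).toSubring (e z)) := by
      have h5 : (⟨f z, hmem z⟩ : V) = Subring.inclusion hV.1
          (algebraMap f.range (LocalSubring.ofPrime f.range P).toSubring (e z)) := rfl
      constructor
      · intro h
        exact hV.2.1 _ (h5 ▸ h)
      · intro h
        rw [h5]
        exact h.map (Subring.inclusion hV.1)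
    have h6 : V.valuation (f z) ≤ 1 := (ValuationSubring.valuation_le_one_iff _ _).2 (hmem z)
    rw [lt_iff_le_and_ne, ne_eq, h3, h4, h1, h2, not_not]
    exact ⟨fun h => h.2, fun h => ⟨h6, h⟩⟩
  exact ⟨V, fun P => (ValuationSubring.valuation_le_one_iff _ _).2 (hmem P), hunit⟩

/-- The reduction of the algebraic number `τ` to the rational number `α` modulo `p`. -/
theorem exists_red {τ : ℂ} {G : Polynomial ℤ} (hG : Irreducible G)
    (hGτ : Polynomial.aeval τ G = 0) {p : ℕ} (hp : p.Prime) {α : ℚ} (hden : ¬ p ∣ α.den)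
    (hdvd : (p : ℤ) ∣ Nv G α) :
    ∃ g : Algebra.adjoin ℤ ({τ} : Set ℂ) →+* ZMod p,
      (α.den : ZMod p) * g ⟨τ, Algebra.subset_adjoin rfl⟩ = (α.num : ZMod p) := by
  classical
  have : Fact p.Prime := ⟨hp⟩
  have hb : (α.den : ZMod p) ≠ 0 := by
    intro h
    exact hden ((ZMod.natCast_eq_zero_iff _ _).1 h)
  let c : ZMod p := (α.num : ZMod p) / (α.den : ZMod p)
  have hc : (α.den : ZMod p) * c = (α.num : ZMod p) := mul_div_cancel₀ _ hb
  have hGc : Polynomial.aeval c G = 0 := by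
    have h1 := Nv_map G α c hc
    have h2 : ((Nv G α : ℤ) : ZMod p) = 0 := (ZMod.intCast_zmod_eq_zero_iff_dvd _ _).2 hdvd
    rw [h2] at h1
    rcases mul_eq_zero.1 h1.symm with h3 | h3
    · exact absurd (pow_ne_zero _ hb) (not_not.2 h3)
    · exact h3
  let f : Polynomial ℤ →+* Algebra.adjoin ℤ ({τ} : Set ℂ) :=
    (Polynomial.aeval (⟨τ, Algebra.subset_adjoin rfl⟩ : Algebra.adjoin ℤ ({τ} : Set ℂ))).toRingHom
  have hfv : ∀ P : Polynomial ℤ, ((f P : Algebra.adjoin ℤ ({τ} : Set ℂ)) : ℂ) =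
      Polynomial.aeval τ P := by
    intro P
    exact (Polynomial.aeval_algHom_apply (Algebra.adjoin ℤ ({τ} : Set ℂ)).val
      (⟨τ, Algebra.subset_adjoin rfl⟩ : Algebra.adjoin ℤ ({τ} : Set ℂ)) P).symm
  have hfs : Function.Surjective f := by
    intro z
    have hz : (z : ℂ) ∈ (Polynomial.aeval τ : Polynomial ℤ →ₐ[ℤ] ℂ).range := by
      have h0 := Algebra.adjoin_singleton_eq_range_aeval ℤ τ
      exact h0 ▸ z.2
    obtain ⟨P, hP⟩ := hz
    exact ⟨P, Subtype.ext ((hfv P).trans hP)⟩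
  have hdeg : G.natDegree ≠ 0 := by
    intro h
    obtain ⟨a, rfl⟩ := Polynomial.natDegree_eq_zero.1 h
    rw [Polynomial.aeval_C] at hGτ
    have h0 : a = 0 := by
      have h1 : ((a : ℤ) : ℂ) = 0 := hGτ
      exact_mod_cast h1
    rw [h0, map_zero] at hG
    exact not_irreducible_zero hG
  have hprim : G.IsPrimitive := hG.isPrimitive hdeg
  have hirr : Irreducible (G.map (Int.castRingHom ℚ)) :=
    (Polynomial.IsPrimitive.Int.irreducible_iff_irreducible_map_cast hprim).1 hG
  have hmapv : ∀ P : Polynomial ℤ, Polynomial.aeval τ (P.map (Int.castRingHom ℚ)) =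
      Polynomial.aeval τ P := fun P => Polynomial.aeval_map_algebraMap ℚ τ P
  have hint : IsIntegral ℚ τ := by
    rw [← isAlgebraic_iff_isIntegral]
    exact ⟨G.map (Int.castRingHom ℚ), hirr.ne_zero, by rw [hmapv, hGτ]⟩
  have hdvdG : ∀ P : Polynomial ℤ, Polynomial.aeval τ P = 0 → G ∣ P := by
    intro P hP
    rw [Polynomial.IsPrimitive.Int.dvd_iff_map_cast_dvd_map_cast _ _ hprim]
    have h1 : minpoly ℚ τ ∣ G.map (Int.castRingHom ℚ) :=
      minpoly.dvd ℚ τ (by rw [hmapv, hGτ])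
    have h2 : minpoly ℚ τ ∣ P.map (Int.castRingHom ℚ) :=
      minpoly.dvd ℚ τ (by rw [hmapv, hP])
    exact ((minpoly.irreducible hint).dvd_symm hirr h1).trans h2
  let g0 : Polynomial ℤ →+* ZMod p := (Polynomial.aeval c : Polynomial ℤ →ₐ[ℤ] ZMod p).toRingHom
  have hker : RingHom.ker f ≤ RingHom.ker g0 := by
    intro P hP
    rw [RingHom.mem_ker] at hP ⊢
    have h1 : Polynomial.aeval τ P = 0 := by
      rw [← hfv, hP]
      rfl
    obtain ⟨Q, rfl⟩ := hdvdG P h1
    show Polynomial.aeval c (G * Q) = 0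
    rw [map_mul, hGc, zero_mul]
  refine ⟨RingHom.liftOfSurjective f hfs ⟨g0, hker⟩, ?_⟩
  have h1 : (⟨τ, Algebra.subset_adjoin rfl⟩ : Algebra.adjoin ℤ ({τ} : Set ℂ)) =
      f Polynomial.X := by
    apply Subtype.ext
    rw [hfv, Polynomial.aeval_X]
  rw [h1, RingHom.liftOfRightInverse_comp_apply]
  show (α.den : ZMod p) * Polynomial.aeval c Polynomial.X = _
  rw [Polynomial.aeval_X, hc]

/-- Above almost every prime `p` there is a valuation ring of `ℂ` containing given elements of `k`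
and given numbers algebraically independent over `k`, in which moreover a given algebraic number `τ`
is near to a given rational number `α`, if `p` divides the value at `α` of the minimal polynomial of
`τ`. -/
theorem exists_valT {k : Type} [Field k] [Algebra k ℂ] [CharZero k] {ι : Type*} [Finite ι]
    (t : ι → k) : ∃ D : ℕ, ∀ p : ℕ, p.Prime → D < p → ∀ (τ : ℂ) (G : Polynomial ℤ),
      Irreducible G → Polynomial.aeval τ G = 0 → ∀ α : ℚ, ¬ p ∣ α.den → (p : ℤ) ∣ Nv G α →
      ∀ (ρ : Type) (x : ρ → ℂ), AlgebraicIndependent k x → ∃ V : ValuationSubring ℂ,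
        V.valuation (τ - α) < 1 ∧ (∀ i, algebraMap k ℂ (t i) ∈ V) ∧ ∀ j, x j ∈ V := by
  classical
  have := Fintype.ofFinite ι
  have : FaithfulSMul ℤ k := (faithfulSMul_iff_algebraMap_injective ℤ k).2 Int.cast_injective
  obtain ⟨s, hs⟩ := exists_isTranscendenceBasis ℤ k
  have : Algebra.IsAlgebraic ℤ ℚ := IsLocalization.isAlgebraic ℚ (nonZeroDivisors ℤ)
  have halg : Algebra.IsAlgebraic (Algebra.adjoin ℤ (Set.range ((↑) : s → k))) k := hs.isAlgebraic
  have h1 : ∀ i, ∃ f : MvPolynomial s ℤ, f ≠ 0 ∧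
      IsIntegral (Algebra.adjoin ℤ (Set.range ((↑) : s → k)))
        (aeval ((↑) : s → k) f * t i) := by
    intro i
    obtain ⟨a, ha, hint⟩ := (halg.1 (t i)).exists_integral_multiple
    have h2 : (a : k) ∈ (aeval ((↑) : s → k) : MvPolynomial s ℤ →ₐ[ℤ] k).range := by
      rw [← Algebra.adjoin_range_eq_range_aeval]
      exact a.2
    obtain ⟨f, hf⟩ := h2
    refine ⟨f, ?_, ?_⟩
    · rintro rfl
      apply ha
      apply Subtype.ext
      rw [← hf]
      simp
    · have h3 : aeval ((↑) : s → k) f = (a : k) := hf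
      rw [h3]
      exact hint
  choose f hf hint using h1
  have h2 : ∀ i, ∃ m, (f i).coeff m ≠ 0 := fun i => by
    by_contra h
    push Not at h
    exact hf i (MvPolynomial.ext _ _ fun m => by rw [h m, coeff_zero])
  choose m hm using h2
  refine ⟨∑ i, ((f i).coeff (m i)).natAbs, fun p hp hpD τ G hG hGτ α hden hdvd ρ x hx => ?_⟩
  have hpf : Fact p.Prime := ⟨hp⟩
  let y : s ⊕ ρ → ℂ := Sum.elim (fun a => algebraMap k ℂ a) x
  have hsum : AlgebraicIndependent ℤ (Sum.elim x (algebraMap k ℂ ∘ ((↑) : s → k))) :=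
    hs.1.sumElim_comp hx
  have hyZ : AlgebraicIndependent ℤ y := by
    have h3 := hsum.comp (Equiv.sumComm s ρ) (Equiv.injective _)
    have h4 : Sum.elim x (algebraMap k ℂ ∘ ((↑) : s → k)) ∘ (Equiv.sumComm s ρ) = y := by
      funext a
      rcases a with a | a <;> rfl
    rwa [h4] at h3
  -- the ring generated by `τ`
  have hτalg : IsAlgebraic ℤ τ := ⟨G, hG.ne_zero, hGτ⟩
  have hΛ : Algebra.IsAlgebraic ℤ (Algebra.adjoin ℤ ({τ} : Set ℂ)) := by
    refine ⟨fun z => ?_⟩
    rw [← isAlgebraic_algHom_iff (Algebra.adjoin ℤ ({τ} : Set ℂ)).val Subtype.val_injective]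
    have hle : Algebra.adjoin ℤ ({τ} : Set ℂ) ≤ Subalgebra.algebraicClosure ℤ ℂ := by
      refine Algebra.adjoin_le ?_
      rintro _ rfl
      exact hτalg
    exact hle z.2
  have hyΛ : AlgebraicIndependent (Algebra.adjoin ℤ ({τ} : Set ℂ)) y := hyZ.extendScalars _
  obtain ⟨g, hg⟩ := exists_red hG hGτ hp hden hdvd
  have h𝔭 : (RingHom.ker g).IsPrime := RingHom.ker_isPrime g
  obtain ⟨V, hV1, hV2⟩ := exists_place_gauss (RingHom.ker g) y hyΛ
  have hmk : ∀ z, Ideal.Quotient.mk (RingHom.ker g) z = 0 ↔ g z = 0 := fun z => by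
    rw [Ideal.Quotient.eq_zero_iff_mem, RingHom.mem_ker]
  have hC : ∀ z : Algebra.adjoin ℤ ({τ} : Set ℂ), V.valuation (z : ℂ) < 1 ↔ g z = 0 := by
    intro z
    have h3 := hV2 (C z)
    rw [aeval_C, map_C, C_eq_zero, hmk] at h3
    exact h3
  have hC1 : ∀ z : Algebra.adjoin ℤ ({τ} : Set ℂ), V.valuation (z : ℂ) ≤ 1 := by
    intro z
    have h3 := hV1 (C z)
    rw [aeval_C] at h3
    exact h3
  have hden1 : V.valuation ((α.den : ℕ) : ℂ) = 1 := by
    have h3 := hC ((α.den : ℕ) : Algebra.adjoin ℤ ({τ} : Set ℂ))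
    have h4 := hC1 ((α.den : ℕ) : Algebra.adjoin ℤ ({τ} : Set ℂ))
    rw [map_natCast, ZMod.natCast_eq_zero_iff] at h3
    have h5 : (((α.den : ℕ) : Algebra.adjoin ℤ ({τ} : Set ℂ)) : ℂ) = ((α.den : ℕ) : ℂ) := by
      norm_cast
    rw [h5] at h3 h4
    refine le_antisymm h4 ?_
    by_contra h
    push Not at h
    exact hden (h3.1 h)
  have hnear : V.valuation (τ - α) < 1 := by
    have h3 := hC (((α.den : ℕ) : Algebra.adjoin ℤ ({τ} : Set ℂ)) *
      ⟨τ, Algebra.subset_adjoin rfl⟩ - ((α.num : ℤ) : Algebra.adjoin ℤ ({τ} : Set ℂ)))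
    rw [map_sub, map_mul, map_natCast, map_intCast, hg, sub_self] at h3
    have h4 := h3.2 rfl
    have h5 : (((((α.den : ℕ) : Algebra.adjoin ℤ ({τ} : Set ℂ)) *
      ⟨τ, Algebra.subset_adjoin rfl⟩ - ((α.num : ℤ) : Algebra.adjoin ℤ ({τ} : Set ℂ))) :
        Algebra.adjoin ℤ ({τ} : Set ℂ)) : ℂ) = ((α.den : ℕ) : ℂ) * (τ - α) := by
      have h6 : ((α.num : ℤ) : ℂ) = (α : ℂ) * ((α.den : ℕ) : ℂ) := by
        have h7 : (α : ℚ) * α.den = α.num := Rat.mul_den_eq_num α
        have h8 := congrArg (Rat.cast : ℚ → ℂ) h7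
        push_cast at h8
        exact h8.symm
      push_cast
      rw [h6]
      ring
    rw [h5, map_mul, hden1, one_mul] at h4
    exact h4
  have hyV : ∀ j, y j ∈ V := by
    intro j
    have h3 := hV1 (X j)
    rw [aeval_X] at h3
    exact (ValuationSubring.valuation_le_one_iff _ _).1 h3
  have hV3 : ∀ f : MvPolynomial (s ⊕ ρ) ℤ, ¬ (C (p : ℤ) ∣ f) → V.valuation (aeval y f) = 1 := by
    intro f hfp
    have e1 : aeval y (MvPolynomial.map (algebraMap ℤ (Algebra.adjoin ℤ ({τ} : Set ℂ))) f) =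
        aeval y f := by
      rw [MvPolynomial.aeval_map_algebraMap]
    have h3 := hV1 (MvPolynomial.map (algebraMap ℤ (Algebra.adjoin ℤ ({τ} : Set ℂ))) f)
    have h4 := hV2 (MvPolynomial.map (algebraMap ℤ (Algebra.adjoin ℤ ({τ} : Set ℂ))) f)
    rw [e1] at h3 h4
    refine le_antisymm h3 ?_
    by_contra h
    push Not at h
    have h5 := h4.1 h
    apply hfp
    rw [C_dvd_iff_dvd_coeff]
    intro u
    have h6 := congrArg (coeff u) h5
    rw [coeff_map, coeff_map, coeff_zero, hmk] at h6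
    have h7 : g (algebraMap ℤ (Algebra.adjoin ℤ ({τ} : Set ℂ)) (coeff u f)) =
        ((coeff u f : ℤ) : ZMod p) := by
      rw [eq_intCast, map_intCast]
    rw [h7] at h6
    exact (ZMod.intCast_zmod_eq_zero_iff_dvd _ _).1 h6
  refine ⟨V, hnear, fun i => ?_, fun j => hyV (Sum.inr j)⟩
  have hnd : ¬ (C (p : ℤ) ∣ rename (Sum.inl : s → s ⊕ ρ) (f i)) := by
    intro h
    rw [C_dvd_iff_dvd_coeff] at h
    have h3' := h ((m i).mapDomain (Sum.inl : s → s ⊕ ρ))
    rw [coeff_rename_mapDomain _ Sum.inl_injective] at h3'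
    have h3 : p ∣ ((f i).coeff (m i)).natAbs := Int.natCast_dvd.1 h3'
    have h4 := Nat.le_of_dvd (Int.natAbs_pos.2 (hm i)) h3
    have h5 : ((f i).coeff (m i)).natAbs ≤ ∑ i, ((f i).coeff (m i)).natAbs :=
      Finset.single_le_sum (f := fun i => ((f i).coeff (m i)).natAbs)
        (fun _ _ => Nat.zero_le _) (Finset.mem_univ i)
    omega
  have h3 := hV3 _ hnd
  rw [aeval_rename] at h3
  have h6 : y ∘ Sum.inl = fun a : s => algebraMap k ℂ a := rfl
  rw [h6] at h3
  have h7 : aeval (fun a : s => algebraMap k ℂ a) (f i) =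
      algebraMap k ℂ (aeval ((↑) : s → k) (f i)) := by
    have h8 := MvPolynomial.map_aeval (R := ℤ) ((↑) : s → k) (algebraMap k ℂ) (f i)
    rw [h8, aeval_def, coe_eval₂Hom]
    congr 1
    exact RingHom.ext_int _ _
  rw [h7] at h3
  have h4 : algebraMap k ℂ (aeval ((↑) : s → k) (f i) * t i) ∈ V := by
    obtain ⟨P, hP, hPe⟩ := hint i
    have hle : ∀ z ∈ Algebra.adjoin ℤ (Set.range ((↑) : s → k)), algebraMap k ℂ z ∈ V := by
      intro z hz
      have h9 : Algebra.adjoin ℤ (Set.range ((↑) : s → k)) ≤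
          (subalgebraOfSubring V.toSubring).comap ((algebraMap k ℂ).toIntAlgHom) := by
        refine Algebra.adjoin_le ?_
        rintro _ ⟨a, rfl⟩
        exact hyV (Sum.inl a)
      exact h9 hz
    let φ : Algebra.adjoin ℤ (Set.range ((↑) : s → k)) →+* V :=
      { toFun := fun a => ⟨algebraMap k ℂ a, hle a a.2⟩
        map_one' := Subtype.ext (map_one _)
        map_mul' := fun _ _ => Subtype.ext (map_mul (algebraMap k ℂ) _ _)
        map_zero' := Subtype.ext (map_zero _)
        map_add' := fun _ _ => Subtype.ext (map_add (algebraMap k ℂ) _ _) }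
    have h1 : IsIntegral V (algebraMap k ℂ (aeval ((↑) : s → k) (f i) * t i)) := by
      refine ⟨P.map φ, hP.map φ, ?_⟩
      rw [Polynomial.eval₂_map]
      have h10 := congrArg (algebraMap k ℂ) hPe
      rw [Polynomial.hom_eval₂, map_zero] at h10
      exact h10
    obtain ⟨y, hy⟩ := IsIntegrallyClosed.isIntegral_iff.1 h1
    rw [← hy]
    exact y.2
  rw [← ValuationSubring.valuation_le_one_iff, map_mul, map_mul, h3, one_mul] at h4
  exact (ValuationSubring.valuation_le_one_iff _ _).1 h4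

end Pool.Agent.Y152.BD
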