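import Pool.Agent.TH526.ZL.N
import Pool.Agent.Y152.BD.Nv

/-!
Algebraic numbers `τ` of bounded degree: for all but finitely many of them the values of the minimal
polynomial at all but `2 d` of given rational numbers have large prime factors. From the `S`-unit
equation over the rational numbers in several variables (helper file).
-/

set_option autoImplicit false

namespace Pool.Agent.Y152.BD

open Pool.Agent.TH551.SU Pool.Agent.TH526.ZL Polynomial

/-- the linear relation between the values of a polynomial of degree at most `e` at `e + 2` points -/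
theorem rel_values {e : ℕ} (x : Fin (e + 2) → ℚ) (hx : Function.Injective x) (P : ℚ[X])
    (hP : P.natDegree ≤ e) :
    ∑ i, Lagrange.nodalWeight Finset.univ x i * P.eval (x i) = 0 := by
  classical
  have hinj : Set.InjOn x (Finset.univ : Finset (Fin (e + 2))) := hx.injOn
  have hcard : (Finset.univ : Finset (Fin (e + 2))).card = e + 2 := by simp
  have hdeg : P.degree < ((Finset.univ : Finset (Fin (e + 2))).card : WithBot ℕ) := by
    rw [hcard]
    refine lt_of_le_of_lt Polynomial.degree_le_natDegree ?_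
    exact_mod_cast Nat.lt_of_le_of_lt hP (by omega)
  have h1 := Lagrange.coeff_eq_sum hinj hdeg
  rw [hcard] at h1
  have h2 : P.coeff (e + 2 - 1) = 0 := Polynomial.coeff_eq_zero_of_natDegree_lt (by omega)
  rw [h2] at h1
  rw [h1]
  refine Finset.sum_congr rfl fun i _ => ?_
  rw [Lagrange.nodalWeight, div_eq_mul_inv, mul_comm, Finset.prod_inv_distrib]

/-- `z` has no prime factor larger than `D`. -/
def SmoothZ (D : ℕ) (z : ℤ) : Prop := ∀ p : ℕ, p.Prime → D < p → ¬ (p : ℤ) ∣ z

/-- The roots of the polynomials of degree `e` which have nonzero smooth values at `2 e + 1` given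
rational numbers are finite in number. -/
theorem finite_smooth (D e : ℕ) (x : Fin (2 * e + 1) → ℚ) (hx : Function.Injective x) :
    {τ : ℂ | ∃ G : ℤ[X], G.natDegree = e ∧ G ≠ 0 ∧ aeval τ G = 0 ∧
      ∀ i, Nv G (x i) ≠ 0 ∧ SmoothZ D (Nv G (x i))}.Finite := by
  classical
  -- the primes
  let P : Finset ℕ := (Finset.range (D + 1)).filter Nat.Prime
  let b : Fin P.card → ℕ := fun v => (P.equivFin.symm v : ℕ)
  have hbP : ∀ v, (b v).Prime := fun v => (Finset.mem_filter.1 (P.equivFin.symm v).2).2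
  have hbi : Function.Injective b := fun v w h => P.equivFin.symm.injective (Subtype.ext h)
  have hbs : ∀ p : ℕ, p.Prime → p ≤ D → ∃ v, b v = p := by
    intro p hp hpD
    refine ⟨P.equivFin ⟨p, Finset.mem_filter.2 ⟨Finset.mem_range.2 (by omega), hp⟩⟩, ?_⟩
    show ((P.equivFin.symm _ : P) : ℕ) = p
    rw [Equiv.symm_apply_apply]
  have hden : ∀ i, ((x i).den : ℚ) ≠ 0 := fun i => by exact_mod_cast (x i).den_ne_zero
  -- the bounds
  have hS : ∀ h : Fin (e + 2) ↪ Fin (2 * e + 1), ∃ H : ℕ, ∀ y : Fin (e + 2) → ℚ,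
      (∀ i, IsSU b (y i)) →
      ∑ i, Lagrange.nodalWeight Finset.univ (fun i => x (h i)) i / ((x (h i)).den : ℚ) ^ e * y i = 0 →
      ∃ j, j ≠ 0 ∧ (y 0 / y j).num.natAbs ≤ H ∧ (y 0 / y j).den ≤ H := by
    intro h
    refine sunit b hbP hbi
      (fun i => Lagrange.nodalWeight Finset.univ (fun i => x (h i)) i / ((x (h i)).den : ℚ) ^ e)
      (fun i => div_ne_zero ?_ (pow_ne_zero _ (hden _))) 0
    exact Lagrange.nodalWeight_ne_zero (hx.comp h.injective).injOn (Finset.mem_univ i)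
  choose H hH using hS
  let H' : ℕ := ∑ h, H h
  have hHH : ∀ h, H h ≤ H' := fun h => Finset.single_le_sum (f := H) (fun _ _ => Nat.zero_le _)
    (Finset.mem_univ h)
  -- the set of the quotients
  let F : Set ℚ := {q : ℚ | q.num.natAbs ≤ H' ∧ q.den ≤ H'}
  have hF : F.Finite := by
    have h1 : F ⊆ (fun q : ℤ × ℕ => (q.1 : ℚ) / q.2) ''
        ((Finset.Icc (-(H' : ℤ)) H' ×ˢ Finset.range (H' + 1) : Finset (ℤ × ℕ)) : Set (ℤ × ℕ)) := by
      rintro q ⟨hq1, hq2⟩
      refine ⟨(q.num, q.den), ?_, Rat.num_div_den q⟩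
      rw [Finset.mem_coe, Finset.mem_product, Finset.mem_Icc, Finset.mem_range]
      refine ⟨⟨?_, ?_⟩, by omega⟩ <;> simp only <;> omega
    exact ((Finset.finite_toSet _).image _).subset h1
  let F1 : Set ℚ := insert 1 F
  have hF1 : F1.Finite := hF.insert 1
  have : Finite F1 := hF1
  -- the polynomials
  let 𝒢 : Set ℚ[X] := Set.range (fun sq : Finset (Fin (2 * e + 1)) × (Fin (2 * e + 1) → F1) =>
    Lagrange.interpolate sq.1 x (fun i => (((x i).den : ℚ) ^ e * (sq.2 i : ℚ))⁻¹))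
  have h𝒢 : 𝒢.Finite := Set.finite_range _
  refine (h𝒢.biUnion fun G1 _ => (Polynomial.rootSet_finite G1 ℂ)).subset ?_
  rintro τ ⟨G, hGe, hG0, hGτ, hGx⟩
  let N : Fin (2 * e + 1) → ℚ := fun i => ((Nv G (x i) : ℤ) : ℚ)
  have hN0 : ∀ i, N i ≠ 0 := fun i => by
    show ((Nv G (x i) : ℤ) : ℚ) ≠ 0
    exact_mod_cast (hGx i).1
  have hNSU : ∀ i, IsSU b (N i) := fun i =>
    isSU_of hbs (fun v => (hbP v).ne_zero) _ (hGx i).1 (hGx i).2
  have hNv : ∀ i, N i = ((x i).den : ℚ) ^ e * (G.map (Int.castRingHom ℚ)).eval (x i) := by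
    intro i
    have h1 := Nv_rat G (x i)
    rw [hGe] at h1
    rw [show N i = ((Nv G (x i) : ℤ) : ℚ) from rfl, h1]
    congr 1
    rw [Polynomial.eval_map, Polynomial.aeval_def]
    rfl
  have hGv : ∀ i, (G.map (Int.castRingHom ℚ)).eval (x i) = N i / ((x i).den : ℚ) ^ e := by
    intro i
    rw [hNv i, mul_div_cancel_left₀ _ (pow_ne_zero _ (hden i))]
  -- the neighbours
  let Nb : Finset (Fin (2 * e + 1)) := (Finset.univ.erase 0).filter fun i => N 0 / N i ∈ F
  have hNb : e ≤ Nb.card := by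
    by_contra hlt
    push Not at hlt
    let Nc : Finset (Fin (2 * e + 1)) := (Finset.univ.erase 0).filter fun i => ¬ N 0 / N i ∈ F
    have hcard : Nb.card + Nc.card = 2 * e := by
      have h1 := Finset.card_filter_add_card_filter_not
        (s := (Finset.univ.erase (0 : Fin (2 * e + 1)))) (fun i => N 0 / N i ∈ F)
      rw [Finset.card_erase_of_mem (Finset.mem_univ _), Finset.card_univ, Fintype.card_fin] at h1
      simpa using h1
    obtain ⟨S, hS, hSc⟩ := Finset.exists_subset_card_eq (s := Nc) (n := e + 1) (by omega)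
    have h0S : (0 : Fin (2 * e + 1)) ∉ S := by
      intro h
      have h1 := (Finset.mem_filter.1 (hS h)).1
      exact absurd rfl (Finset.mem_erase.1 h1).1
    let h : Fin (e + 2) ↪ Fin (2 * e + 1) :=
      ⟨Fin.cons 0 (fun i => S.orderEmbOfFin hSc i), by
        refine Fin.cons_injective_iff.2 ⟨?_, (S.orderEmbOfFin hSc).injective⟩
        rintro ⟨i, hi⟩
        apply h0S
        rw [← hi]
        exact Finset.orderEmbOfFin_mem S hSc i⟩
    have hh0 : h 0 = 0 := rfl
    have hhs : ∀ i : Fin (e + 1), h i.succ = S.orderEmbOfFin hSc i := fun i => rfl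
    obtain ⟨j, hj0, hj1, hj2⟩ := hH h (fun i => N (h i)) (fun i => hNSU _) (by
      have h1 := rel_values (fun i => x (h i)) (hx.comp h.injective)
        (G.map (Int.castRingHom ℚ)) ((Polynomial.natDegree_map_le).trans hGe.le)
      rw [← h1]
      refine Finset.sum_congr rfl fun i _ => ?_
      rw [hGv]
      ring)
    obtain ⟨j', rfl⟩ := Fin.exists_succ_eq.2 hj0
    have h2 : h j'.succ ∈ Nc := by
      rw [hhs]
      exact hS (Finset.orderEmbOfFin_mem S hSc j')
    apply (Finset.mem_filter.1 h2).2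
    rw [← hh0]
    exact ⟨hj1.trans (hHH h), hj2.trans (hHH h)⟩
  obtain ⟨J, hJ, hJc⟩ := Finset.exists_subset_card_eq hNb
  have h0J : (0 : Fin (2 * e + 1)) ∉ J := by
    intro h
    have h1 := (Finset.mem_filter.1 (hJ h)).1
    exact absurd rfl (Finset.mem_erase.1 h1).1
  let s : Finset (Fin (2 * e + 1)) := insert 0 J
  have hsc : s.card = e + 1 := by
    rw [Finset.card_insert_of_notMem h0J, hJc]
  have hsF : ∀ i ∈ s, N 0 / N i ∈ F1 := by
    intro i hi
    rcases Finset.mem_insert.1 hi with rfl | hi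
    · left
      exact div_self (hN0 _)
    · right
      exact (Finset.mem_filter.1 (hJ hi)).2
  let q : Fin (2 * e + 1) → F1 := fun i =>
    if h : i ∈ s then ⟨N 0 / N i, hsF i h⟩ else ⟨1, Or.inl rfl⟩
  let G1 : ℚ[X] := C (N 0)⁻¹ * G.map (Int.castRingHom ℚ)
  have hG1 : G1 = Lagrange.interpolate s x (fun i => (((x i).den : ℚ) ^ e * (q i : ℚ))⁻¹) := by
    refine Lagrange.eq_interpolate_of_eval_eq _ hx.injOn ?_ ?_
    · refine lt_of_le_of_lt Polynomial.degree_le_natDegree ?_
      rw [hsc]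
      have h1 : G1.natDegree ≤ e :=
        (Polynomial.natDegree_C_mul_le _ _).trans ((Polynomial.natDegree_map_le).trans hGe.le)
      exact_mod_cast Nat.lt_succ_of_le h1
    · intro i hi
      have h1 : (q i : ℚ) = N 0 / N i := by
        simp only [q, dif_pos hi]
      rw [h1, Polynomial.eval_mul, Polynomial.eval_C, hGv]
      have h2 := hN0 0
      have h3 := hN0 i
      have h4 := hden i
      field_simp
  have hmem : G1 ∈ 𝒢 := ⟨(s, q), hG1.symm⟩
  refine Set.mem_biUnion hmem ?_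
  rw [Polynomial.mem_rootSet]
  refine ⟨mul_ne_zero (C_ne_zero.2 (inv_ne_zero (hN0 0))) ?_, ?_⟩
  · exact (Polynomial.map_ne_zero_iff (Int.castRingHom ℚ).injective_int).2 hG0
  · rw [map_mul]
    have h1 : aeval τ (G.map (Int.castRingHom ℚ)) = aeval τ G :=
      Polynomial.aeval_map_algebraMap ℚ τ G
    rw [h1, hGτ, mul_zero]

/-- `τ` is algebraic over the rational numbers, of degree at most `d`. -/
def DegLE (d : ℕ) (τ : ℂ) : Prop := ∃ F : ℤ[X], F ≠ 0 ∧ F.natDegree ≤ d ∧ aeval τ F = 0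

/-- an irreducible integral polynomial -/
theorem DegLE.exists_irreducible {d : ℕ} {τ : ℂ} (h : DegLE d τ) :
    ∃ G : ℤ[X], Irreducible G ∧ G.natDegree ≤ d ∧ aeval τ G = 0 := by
  classical
  obtain ⟨F, hF0, hFd, hFτ⟩ := h
  obtain ⟨f, hf, u, hu⟩ := UniqueFactorizationMonoid.exists_prime_factors F hF0
  have h1 : aeval τ f.prod = 0 := by
    have h2 := congrArg (aeval τ) hu
    rw [map_mul, hFτ] at h2
    rcases mul_eq_zero.1 h2 with h3 | h3
    · exact h3
    · exfalso
      have h4 := (u.isUnit.map (aeval τ : ℤ[X] →ₐ[ℤ] ℂ)).ne_zero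
      exact h4 h3
  rw [map_multiset_prod, Multiset.prod_eq_zero_iff, Multiset.mem_map] at h1
  obtain ⟨G, hG, hGτ⟩ := h1
  refine ⟨G, (hf G hG).irreducible, ?_, hGτ⟩
  have h2 : G ∣ F := (Multiset.dvd_prod hG).trans ⟨u, hu.symm⟩
  exact (Polynomial.natDegree_le_of_dvd h2 hF0).trans hFd

/-- The algebraic numbers `τ` of degree at most `d` such that fewer than `M - 2 d` of the values of
the minimal polynomial at the `α` have a large prime factor are finite in number. -/
theorem finite_badD (D d : ℕ) {M L : ℕ} (hM : L + 2 * d ≤ M) (α : Fin M → ℚ)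
    (hα : Function.Injective α) :
    {τ : ℂ | DegLE d τ ∧ ¬ ∃ f : Fin L → Fin M, Function.Injective f ∧
      ∃ G : ℤ[X], Irreducible G ∧ aeval τ G = 0 ∧
      ∀ l, ∃ p : ℕ, p.Prime ∧ D < p ∧ (p : ℤ) ∣ Nv G (α (f l))}.Finite := by
  classical
  have hfin := fun (e : Fin (d + 1)) (g : Fin (2 * (e : ℕ) + 1) ↪ Fin M) =>
    finite_smooth D e (fun i => α (g i)) (hα.comp g.injective)
  refine (Set.finite_iUnion fun e => Set.finite_iUnion fun g => hfin e g).subset ?_
  rintro τ ⟨hτ, hbad⟩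
  obtain ⟨G, hG, hGd, hGτ⟩ := hτ.exists_irreducible
  let Gd : Finset (Fin M) := Finset.univ.filter fun l =>
    ∃ p : ℕ, p.Prime ∧ D < p ∧ (p : ℤ) ∣ Nv G (α l)
  have hcard : Gd.card < L := by
    by_contra hge
    push Not at hge
    apply hbad
    obtain ⟨S, hS, hSc⟩ := Finset.exists_subset_card_eq hge
    refine ⟨fun l => S.orderEmbOfFin hSc l, (S.orderEmbOfFin hSc).injective, G, hG, hGτ,
      fun l => ?_⟩
    exact (Finset.mem_filter.1 (hS (Finset.orderEmbOfFin_mem S hSc l))).2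
  have hcompl : 2 * G.natDegree + 1 ≤ Gdᶜ.card := by
    rw [Finset.card_compl, Fintype.card_fin]
    omega
  obtain ⟨S, hS, hSc⟩ := Finset.exists_subset_card_eq hcompl
  refine Set.mem_iUnion.2 ⟨⟨G.natDegree, by omega⟩, Set.mem_iUnion.2
    ⟨(S.orderEmbOfFin hSc).toEmbedding, G, rfl, hG.ne_zero, hGτ, fun i => ?_⟩⟩
  have h1 : S.orderEmbOfFin hSc i ∉ Gd :=
    Finset.mem_compl.1 (hS (Finset.orderEmbOfFin_mem S hSc i))
  have hsm : SmoothZ D (Nv G (α (S.orderEmbOfFin hSc i))) := by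
    intro p hp hpD hdvd
    exact h1 (Finset.mem_filter.2 ⟨Finset.mem_univ _, p, hp, hpD, hdvd⟩)
  refine ⟨fun h0 => ?_, hsm⟩
  obtain ⟨p, hpD, hp⟩ := Nat.exists_infinite_primes (D + 1)
  exact hsm p hp (by omega) (h0 ▸ dvd_zero _)

end Pool.Agent.Y152.BD
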