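import Pool.Agent.TH526.ZL.M
import Pool.Agent.Y152.BD.Place
import Pool.Agent.Y152.BD.Sm

/-!
One-parameter families of subsets of products of modular curves: valuation rings which are good for
the members which are near to given degenerate members (helper file, adapted from
`Pool.Agent.TH526.ZL.L` and `Pool.Agent.TH526.ZL.M`).
-/

open Function UpperHalfPlane H294ZP MvPolynomial Pool.Agent.W466.ZC Pool.Agent.TH526.ZL

namespace Pool.Agent.Y152.BD

variable {k : Type} [Field k] [Algebra k ℂ]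

/-- Good valuation rings for the members of a family which are near to the degenerate ones. -/
theorem goodV [IsAlgClosed k] [CharZero k] {σ : Type*} [Fintype σ] {κ : Type} [Finite κ]
    {n m M : ℕ} (G : κ → MvPolynomial σ (Polynomial k))
    (hhom : ∀ i, ∃ e, (G i).IsHomogeneous e) (A B : Fin n → MvPolynomial σ (Polynomial k))
    (α : Fin M → k)
    (hdis : ∀ l, ∀ I : Finset (Fin n), I.card = m + 1 → ∀ y : σ → ℂ,
      (∀ i, aeval y (spec (α l) (G i)) = 0) →
      (∀ i ∈ I, aeval y (spec (α l) (A i)) * aeval y (spec (α l) (B i)) = 0) → y = 0) :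
    ∃ W : Set k, W.Finite ∧ ∀ V : ValuationSubring ℂ, (∀ z ∈ W, algebraMap k ℂ z ∈ V) →
      ∀ (l : Fin M) (τ : k), V.valuation (algebraMap k ℂ (τ - α l)) < 1 →
      ∀ y : σ → ℂ, y ≠ 0 → (∀ i, aeval y (spec τ (G i)) = 0) →
        ∃ c : ℂ, c ≠ 0 ∧ (∀ i, aeval (c • y) (spec τ (A i)) ∈ V ∧
          aeval (c • y) (spec τ (B i)) ∈ V) ∧
          ∀ I : Finset (Fin n), I.card = m + 1 → ∃ i ∈ I,
            V.valuation (aeval (c • y) (spec τ (A i)) * aeval (c • y) (spec τ (B i))) = 1 := by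
  classical
  have := Fintype.ofFinite κ
  have hcert := fun (l : Fin M) (I : {I : Finset (Fin n) // I.card = m + 1}) =>
    cert' (k := k) (Empty.elim : Empty → MvPolynomial σ k)
      (fun b : κ ⊕ I.1 => Sum.elim (fun i => spec (α l) (G i))
        (fun i : I.1 => spec (α l) (A i) * spec (α l) (B i)) b) (fun y _ hb =>
      hdis l I.1 I.2 y (fun i => hb (Sum.inl i)) fun i hi => by
        have := hb (Sum.inr ⟨i, hi⟩)
        simp only [Sum.elim_inr] at this
        rwa [map_mul] at this)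
  choose M' U hU using hcert
  let W : Set k := (⋃ q : (Fin M) × {I : Finset (Fin n) // I.card = m + 1} × σ,
      ⋃ b : κ ⊕ q.2.1.1, coefsP (U q.1 q.2.1 q.2.2 b)) ∪
    ((⋃ i, coefsT (A i)) ∪ ((⋃ i, coefsT (B i)) ∪ ((⋃ i, coefsT (G i)) ∪
      (Set.range α))))
  have hWfin : W.Finite := by
    refine Set.Finite.union (Set.finite_iUnion fun q => Set.finite_iUnion fun b =>
      coefsP_finite _) (Set.Finite.union (Set.finite_iUnion fun i => coefsT_finite _)
      (Set.Finite.union (Set.finite_iUnion fun i => coefsT_finite _)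
      (Set.Finite.union (Set.finite_iUnion fun i => coefsT_finite _)
      (Set.finite_range α))))
  refine ⟨W, hWfin, fun V hW => ?_⟩
  intro l τ hτl y hy0 hyG
  have hUV : ∀ I j b, ∀ u ∈ (U l I j b).support, algebraMap k ℂ ((U l I j b).coeff u) ∈ V := by
    intro I j b u hu
    exact hW _ (Or.inl (Set.mem_iUnion.2 ⟨(l, I, j), Set.mem_iUnion.2 ⟨b, ⟨u, hu, rfl⟩⟩⟩))
  have hAV : ∀ i u j, algebraMap k ℂ (((A i).coeff u).coeff j) ∈ V := fun i =>
    coefsT_mem V fun z hz => hW z (Or.inr (Or.inl (Set.mem_iUnion.2 ⟨i, hz⟩)))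
  have hBV : ∀ i u j, algebraMap k ℂ (((B i).coeff u).coeff j) ∈ V := fun i =>
    coefsT_mem V fun z hz => hW z (Or.inr (Or.inr (Or.inl (Set.mem_iUnion.2 ⟨i, hz⟩))))
  have hGV : ∀ i u j, algebraMap k ℂ (((G i).coeff u).coeff j) ∈ V := fun i =>
    coefsT_mem V fun z hz => hW z (Or.inr (Or.inr (Or.inr (Or.inl (Set.mem_iUnion.2 ⟨i, hz⟩)))))
  have hαV : algebraMap k ℂ (α l) ∈ V :=
    hW _ (Or.inr (Or.inr (Or.inr (Or.inr ⟨l, rfl⟩))))
  have hτV : algebraMap k ℂ τ ∈ V := by
    have h1 : algebraMap k ℂ τ = algebraMap k ℂ (τ - α l) + algebraMap k ℂ (α l) := by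
      rw [map_sub, sub_add_cancel]
    rw [h1]
    exact add_mem ((ValuationSubring.valuation_le_one_iff _ _).1 hτl.le) hαV
  set v := V.valuation with hv
  have hne : (Finset.univ : Finset σ).Nonempty := by
    by_contra h
    rw [Finset.not_nonempty_iff_eq_empty, Finset.univ_eq_empty_iff] at h
    exact hy0 (funext fun j => (h.false j).elim)
  obtain ⟨j0, -, hj0⟩ := Finset.exists_max_image Finset.univ (fun j => v (y j)) hne
  have hyj0 : y j0 ≠ 0 := by
    intro h
    apply hy0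
    funext j
    have h1 := hj0 j (Finset.mem_univ j)
    simp only [h, map_zero, le_zero_iff] at h1
    exact (map_eq_zero v).1 h1
  set z := (y j0)⁻¹ • y with hz
  have hzV : ∀ j, z j ∈ V := by
    intro j
    rw [← ValuationSubring.valuation_le_one_iff, hz, Pi.smul_apply, smul_eq_mul, map_mul, map_inv₀]
    have h1 := hj0 j (Finset.mem_univ j)
    have h2 : v (y j0) ≠ 0 := (map_ne_zero v).2 hyj0
    calc (v (y j0))⁻¹ * v (y j) ≤ (v (y j0))⁻¹ * v (y j0) := mul_le_mul_right h1 _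
      _ = 1 := inv_mul_cancel₀ h2
  have hzG : ∀ i, aeval z (spec τ (G i)) = 0 := by
    intro i
    obtain ⟨e, he⟩ := hhom i
    rw [hz, spec_smul he, hyG i, mul_zero]
  refine ⟨(y j0)⁻¹, inv_ne_zero hyj0, fun i => ⟨aeval_spec_mem V _ (hAV i) hτV hzV,
    aeval_spec_mem V _ (hBV i) hτV hzV⟩, ?_⟩
  intro I hI
  by_contra hcon
  push Not at hcon
  have hclose : ∀ P : MvPolynomial σ (Polynomial k),
      (∀ u i, algebraMap k ℂ ((P.coeff u).coeff i) ∈ V) →
      v (aeval z (spec τ P) - aeval z (spec (α l) P)) < 1 := fun P hP =>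
    v_spec_sub V P hP hτV hαV hτl hzV
  have hltG : ∀ i, v (aeval z (spec (α l) (G i))) < 1 := by
    intro i
    have h1 := hclose (G i) (hGV i)
    rw [hzG i, zero_sub, Valuation.map_neg] at h1
    exact h1
  have hlt : ∀ i ∈ I, v (aeval z (spec (α l) (A i)) * aeval z (spec (α l) (B i))) < 1 := by
    intro i hi
    have hA1 := (ValuationSubring.valuation_le_one_iff _ _).2
      (aeval_spec_mem V _ (hAV i) hτV hzV)
    have hB1 := (ValuationSubring.valuation_le_one_iff _ _).2
      (aeval_spec_mem V _ (hBV i) hαV hzV)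
    have h0 : v (aeval z (spec τ (A i)) * aeval z (spec τ (B i))) < 1 := by
      refine lt_of_le_of_ne ?_ (hcon i hi)
      rw [ValuationSubring.valuation_le_one_iff]
      exact mul_mem (aeval_spec_mem V _ (hAV i) hτV hzV) (aeval_spec_mem V _ (hBV i) hτV hzV)
    have e1 : aeval z (spec (α l) (A i)) * aeval z (spec (α l) (B i)) =
        aeval z (spec τ (A i)) * aeval z (spec τ (B i)) -
        (aeval z (spec τ (A i)) * (aeval z (spec τ (B i)) - aeval z (spec (α l) (B i))) +
          (aeval z (spec τ (A i)) - aeval z (spec (α l) (A i))) *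
            aeval z (spec (α l) (B i))) := by ring
    rw [e1]
    refine Valuation.map_sub_lt _ h0 (Valuation.map_add_lt _ ?_ ?_)
    · rw [map_mul]
      exact (mul_le_of_le_one_left' hA1).trans_lt (hclose _ (hBV i))
    · rw [map_mul]
      exact (mul_le_of_le_one_right' hB1).trans_lt (hclose _ (hAV i))
  have h1 := hU l ⟨I, hI⟩ z (fun i => i.elim) j0
  have h2 : z j0 = 1 := by
    rw [hz, Pi.smul_apply, smul_eq_mul, inv_mul_cancel₀ hyj0]
  rw [h2, one_pow] at h1
  have h3 : v (∑ b : κ ⊕ I, aeval z (U l ⟨I, hI⟩ j0 b) *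
      aeval z (Sum.elim (fun i => spec (α l) (G i))
        (fun i : I => spec (α l) (A i) * spec (α l) (B i)) b)) < 1 := by
    refine Valuation.map_sum_lt _ one_ne_zero fun b _ => ?_
    rw [map_mul]
    refine (mul_le_of_le_one_left' ((ValuationSubring.valuation_le_one_iff _ _).2
      (aeval_mem V _ (hUV ⟨I, hI⟩ j0 b) hzV))).trans_lt ?_
    rcases b with i | i
    · exact hltG i
    · simp only [Sum.elim_inr, map_mul (aeval z)]
      exact hlt i i.2
  rw [← h1, map_one] at h3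
  exact lt_irrefl _ h3

/-- The data at the places near to the degenerate members. -/
theorem nearV [IsAlgClosed k] [CharZero k] {κ : Type} [Finite κ]
    {N n m M : ℕ} (G : κ → MvPolynomial (Fin (N + 1)) (Polynomial k))
    (hG : ∀ i, ∃ e, (G i).IsHomogeneous e)
    (A B : Fin n → MvPolynomial (Fin (N + 1)) (Polynomial k)) (d : Fin n → ℕ)
    (hA : ∀ i, (A i).IsHomogeneous (d i)) (hB : ∀ i, (B i).IsHomogeneous (d i))
    (R : Fin n → Polynomial (Polynomial k)) (c : Fin n → Polynomial k) (α : Fin M → k)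
    (hc : ∀ i, c i ≠ 0)
    (hdis : ∀ l, ∀ I : Finset (Fin n), I.card = m + 1 → ∀ y : Fin (N + 1) → ℂ,
      (∀ i, aeval y (spec (α l) (G i)) = 0) →
      (∀ i ∈ I, aeval y (spec (α l) (A i)) * aeval y (spec (α l) (B i)) = 0) → y = 0)
    (Γ : Set k) (hΓ : Γ.Finite) :
    ∃ W : Set k, W.Finite ∧ Γ ⊆ W ∧ ∀ V : ValuationSubring ℂ, (∀ z ∈ W, algebraMap k ℂ z ∈ V) →
      (∀ i u w, ((R i).coeff u).coeff w ≠ 0 →
        V.valuation (algebraMap k ℂ (((R i).coeff u).coeff w)) = 1) ∧
      ∀ (l : Fin M) (τ : k), V.valuation (algebraMap k ℂ (τ - α l)) < 1 →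
      ∀ (s : Fin n → ℂ) (y : Fin (N + 1) → ℂ), y ≠ 0 → (∀ i, aeval y (spec τ (G i)) = 0) →
      (∀ i, algebraMap k ℂ ((c i).eval τ) * aeval y (spec τ (B i)) * s i =
        aeval y (spec τ (A i))) →
      ∃ E : Finset (Fin n), E.card ≤ m ∧ ∀ i, i ∉ E → V.valuation (s i) *
        V.valuation (algebraMap k ℂ (τ - α l)) ^ (c i).rootMultiplicity (α l) = 1 := by
  classical
  have hq : ∀ (l : Fin M) (i : Fin n), ∃ q : Polynomial k,
      c i = (Polynomial.X - Polynomial.C (α l)) ^
        (c i).rootMultiplicity (α l) * q ∧ q.eval (α l) ≠ 0 := by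
    intro l i
    obtain ⟨q, hq1, hq2⟩ :=
      Polynomial.exists_eq_pow_rootMultiplicity_mul_and_not_dvd (c i) (hc i) (α l)
    refine ⟨q, hq1, fun h => hq2 ?_⟩
    rw [Polynomial.dvd_iff_isRoot]
    exact h
  choose q hq1 hq2 using hq
  let W1 : Set k := (⋃ l, ⋃ i, coefs1 (q l i)) ∪ ((Set.range fun li : Fin M × Fin n =>
    (q li.1 li.2).eval (α li.1)) ∪
    (⋃ i, ⋃ u ∈ ((R i).support : Set ℕ), coefs1 ((R i).coeff u)))
  have hW1 : W1.Finite := by
    refine Set.Finite.union (Set.finite_iUnion fun l => Set.finite_iUnion fun i =>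
      coefs1_finite _) (Set.Finite.union (Set.finite_range _) (Set.finite_iUnion fun i =>
      (R i).support.finite_toSet.biUnion fun u _ => coefs1_finite _))
  obtain ⟨W3, hW3, hgood⟩ := goodV (m := m) G hG A B α hdis
  let W2 : Set k := W1 ∪ ((fun z => z⁻¹) '' W1 ∪ (Set.range α ∪ (Γ ∪ W3)))
  have hW2 : W2.Finite :=
    hW1.union ((hW1.image _).union ((Set.finite_range _).union (hΓ.union hW3)))
  refine ⟨W2, hW2, fun z hz => Or.inr (Or.inr (Or.inr (Or.inl hz))), fun V hV => ?_⟩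
  have hW1V : ∀ z ∈ W1, algebraMap k ℂ z ∈ V := fun z hz => hV z (Or.inl hz)
  have hW1V' : ∀ z ∈ W1, algebraMap k ℂ z⁻¹ ∈ V := fun z hz =>
    hV _ (Or.inr (Or.inl ⟨z, hz, rfl⟩))
  refine ⟨fun i u w h0 => ?_, fun l τ hτ s y hy0 hyG hxy => ?_⟩
  · refine v_unit V hW1V hW1V' (Or.inr (Or.inr (Set.mem_iUnion.2 ⟨i, ?_⟩))) h0
    refine Set.mem_biUnion (x := u) ?_ ⟨w, Polynomial.mem_support_iff.2 h0, rfl⟩
    rw [Finset.mem_coe, Polynomial.mem_support_iff]
    intro h1
    rw [h1, Polynomial.coeff_zero] at h0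
    exact h0 rfl
  · have hαV : algebraMap k ℂ (α l) ∈ V := hV _ (Or.inr (Or.inr (Or.inl ⟨l, rfl⟩)))
    have hτV : algebraMap k ℂ τ ∈ V := by
      have h1 : algebraMap k ℂ τ = algebraMap k ℂ (τ - α l) + algebraMap k ℂ (α l) := by
        rw [map_sub, sub_add_cancel]
      rw [h1]
      exact add_mem ((ValuationSubring.valuation_le_one_iff _ _).1 hτ.le) hαV
    have hcv : ∀ i, V.valuation (algebraMap k ℂ ((c i).eval τ)) =
        V.valuation (algebraMap k ℂ (τ - α l)) ^ (c i).rootMultiplicity (α l) := by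
      intro i
      have h1 : V.valuation (algebraMap k ℂ ((q l i).eval τ)) = 1 := by
        have h2 : V.valuation (algebraMap k ℂ ((q l i).eval (α l))) = 1 :=
          v_unit V hW1V hW1V' (Or.inr (Or.inl ⟨(l, i), rfl⟩)) (hq2 _ _)
        have h3 := v_eval_sub V (q l i) (coefs1_mem V fun z hz => hW1V z
          (Or.inl (Set.mem_iUnion.2 ⟨l, Set.mem_iUnion.2 ⟨i, hz⟩⟩))) hτV hαV hτ
        rw [← h2]
        refine Valuation.map_eq_of_sub_lt _ ?_
        rw [← map_sub, h2]
        exact h3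
      conv_lhs => rw [hq1 l i]
      rw [Polynomial.eval_mul, Polynomial.eval_pow, Polynomial.eval_sub, Polynomial.eval_X,
        Polynomial.eval_C, map_mul, map_mul, h1, mul_one, map_pow, map_pow]
    obtain ⟨t, ht0, hAB, hI⟩ := hgood V (fun z hz => hV z (Or.inr (Or.inr (Or.inr (Or.inr hz)))))
      l τ hτ y hy0 hyG
    refine ⟨Finset.univ.filter fun i => ¬ V.valuation (aeval (t • y)
      (spec τ (A i)) * aeval (t • y) (spec τ (B i))) = 1, ?_, ?_⟩
    · by_contra h
      push Not at h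
      obtain ⟨I, hIE, hIc⟩ := Finset.exists_subset_card_eq (Nat.succ_le_of_lt h)
      obtain ⟨i, hi, h1⟩ := hI I hIc
      exact (Finset.mem_filter.1 (hIE hi)).2 h1
    · intro i hi
      rw [Finset.mem_filter] at hi
      push Not at hi
      have h1 := hi (Finset.mem_univ i)
      have hA1 := (ValuationSubring.valuation_le_one_iff _ _).2 (hAB i).1
      have hB1 := (ValuationSubring.valuation_le_one_iff _ _).2 (hAB i).2
      rw [map_mul] at h1
      have hA2 : V.valuation (aeval (t • y) (spec τ (A i))) = 1 := by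
        refine le_antisymm hA1 ?_
        by_contra h
        push Not at h
        have h2 := (mul_le_of_le_one_right' hB1).trans_lt h
        rw [h1] at h2
        exact lt_irrefl _ h2
      have hB2 : V.valuation (aeval (t • y) (spec τ (B i))) = 1 := by
        rw [hA2, one_mul] at h1
        exact h1
      have h3 : algebraMap k ℂ ((c i).eval τ) *
          aeval (t • y) (spec τ (B i)) * s i =
            aeval (t • y) (spec τ (A i)) := by
        rw [spec_smul (hA i), spec_smul (hB i), ← hxy i]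
        ring
      have h4 := congrArg V.valuation h3
      rw [map_mul, map_mul, hA2, hB2, mul_one, hcv] at h4
      rw [mul_comm]
      exact h4

/-- elements integral over the ring generated by a subset of `k` are algebraic over `k` -/
theorem alg_of_int (Γ : Set k) {z : ℂ}
    (hz : IsIntegral (Algebra.adjoin ℤ (algebraMap k ℂ '' Γ)) z) : IsAlgebraic k z := by
  obtain ⟨P, hP, hPe⟩ := hz
  have hle : ∀ z ∈ Algebra.adjoin ℤ (algebraMap k ℂ '' Γ), z ∈ (algebraMap k ℂ).range := by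
    intro z hz
    have h9 : Algebra.adjoin ℤ (algebraMap k ℂ '' Γ) ≤
        subalgebraOfSubring (algebraMap k ℂ).range := by
      refine Algebra.adjoin_le ?_
      rintro _ ⟨g, hg, rfl⟩
      exact ⟨g, rfl⟩
    exact h9 hz
  let e : k ≃+* (algebraMap k ℂ).range := RingEquiv.ofBijective (algebraMap k ℂ).rangeRestrict
    ⟨fun a b h => (algebraMap k ℂ).injective (congrArg Subtype.val h),
      (algebraMap k ℂ).rangeRestrict_surjective⟩
  let φ : Algebra.adjoin ℤ (algebraMap k ℂ '' Γ) →+* (algebraMap k ℂ).range :=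
    (algebraMap (Algebra.adjoin ℤ (algebraMap k ℂ '' Γ)) ℂ).codRestrict _ (fun a => hle a a.2)
  let ψ : Algebra.adjoin ℤ (algebraMap k ℂ '' Γ) →+* k := (e.symm : _ →+* k).comp φ
  have hcomp : (algebraMap k ℂ).comp ψ =
      algebraMap (Algebra.adjoin ℤ (algebraMap k ℂ '' Γ)) ℂ := by
    ext a
    have h1 : e (e.symm (φ a)) = φ a := e.apply_symm_apply _
    exact congrArg Subtype.val h1
  have h1 : IsIntegral k z := by
    refine ⟨P.map ψ, hP.map _, ?_⟩
    rw [Polynomial.eval₂_map, hcomp]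
    exact hPe
  exact h1.isAlgebraic

theorem v_le_of_int (Γ : Set k) (V : ValuationSubring ℂ) (hΓV : ∀ z ∈ Γ, algebraMap k ℂ z ∈ V)
    {z : ℂ} (hz : IsIntegral (Algebra.adjoin ℤ (algebraMap k ℂ '' Γ)) z) :
    V.valuation z ≤ 1 := by
  refine (ValuationSubring.valuation_le_one_iff _ _).2
    (W466.ZC.mem_of_integral V ?_ hz)
  intro w hw
  have hle : Algebra.adjoin ℤ (algebraMap k ℂ '' Γ) ≤ subalgebraOfSubring V.toSubring := by
    refine Algebra.adjoin_le ?_
    rintro _ ⟨g, hg, rfl⟩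
    exact hΓV g hg
  exact hle hw

/-- The places for an algebraic parameter. -/
theorem exists_places [CharZero k] {L M : ℕ} (W : Set k) (hW : W.Finite) (α : Fin M → ℚ) :
    ∃ D : ℕ, ∀ (τ : k) (f : Fin L → Fin M) (G : Polynomial ℤ), Irreducible G →
      Polynomial.aeval (algebraMap k ℂ τ) G = 0 →
      (∀ l, ∃ p : ℕ, p.Prime ∧ D < p ∧ (p : ℤ) ∣ Nv G (α (f l))) →
      ∀ (ρ : Type) (x : ρ → ℂ), AlgebraicIndependent k x →
      ∀ l, ∃ V : ValuationSubring ℂ,
        V.valuation (algebraMap k ℂ (τ - ((α (f l) : ℚ) : k))) < 1 ∧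
        (∀ z ∈ W, algebraMap k ℂ z ∈ V) ∧ ∀ j, x j ∈ V := by
  have := hW.to_subtype
  obtain ⟨D, hD⟩ := exists_valT (fun z : W => (z : k))
  refine ⟨D + ∑ l, (α l).den, fun τ f G hG hGτ hp ρ x hx l => ?_⟩
  obtain ⟨p, hpp, hpD, hdvd⟩ := hp l
  have hden : ¬ p ∣ (α (f l)).den := by
    intro h
    have h1 := Nat.le_of_dvd (α (f l)).den_pos h
    have h2 : (α (f l)).den ≤ ∑ l, (α l).den :=
      Finset.single_le_sum (f := fun l => (α l).den) (fun _ _ => Nat.zero_le _)
        (Finset.mem_univ (f l))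
    omega
  obtain ⟨V, hV1, hV2, hV3⟩ := hD p hpp (by omega) _ G hG hGτ (α (f l)) hden hdvd ρ x hx
  refine ⟨V, ?_, fun z hz => hV2 ⟨z, hz⟩, hV3⟩
  rw [map_sub, map_ratCast]
  exact hV1

end Pool.Agent.Y152.BD
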